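import Mathlib

/-!
The hole lemma (section 6b of the text MP_794e6e_pr_M2_text_helper96.md).

For a compact symmetric neighbourhood `A` of the origin in a real vector space of dimension `k`, if a
multiple `x • θ` (`θ ∈ A`, `0 ≤ x ≤ 1`) of an element of `A` is missing in the `20 j`-fold sum set of
`A`, then the `13 j`-fold sum set of `A` has volume at least `j ^ (k + 1)` times the volume of `A`.
-/

open MeasureTheory Set

namespace Pool.Agent.SawHole

section Sums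

variable {E : Type*} [AddCommGroup E]

/-- The `n`-fold sum set `A + ... + A`. -/
def ms (A : Set E) : ℕ → Set E
  | 0 => {0}
  | n + 1 => {x | ∃ y ∈ ms A n, ∃ a ∈ A, x = y + a}

theorem mem_ms_zero {A : Set E} {x : E} : x ∈ ms A 0 ↔ x = 0 := Iff.rfl

theorem mem_ms_succ {A : Set E} {n : ℕ} {x : E} :
    x ∈ ms A (n + 1) ↔ ∃ y ∈ ms A n, ∃ a ∈ A, x = y + a := Iff.rfl

theorem mem_ms_one {A : Set E} {x : E} : x ∈ ms A 1 ↔ x ∈ A := by
  rw [mem_ms_succ]
  constructor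
  · rintro ⟨y, hy, a, ha, rfl⟩
    rw [mem_ms_zero] at hy
    rw [hy, zero_add]
    exact ha
  · intro hx
    exact ⟨0, rfl, x, hx, (zero_add x).symm⟩

theorem mem_ms_add {A : Set E} (m n : ℕ) {x : E} :
    x ∈ ms A (m + n) ↔ ∃ y ∈ ms A m, ∃ z ∈ ms A n, x = y + z := by
  induction n generalizing x with
  | zero =>
    constructor
    · intro hx
      exact ⟨x, hx, 0, rfl, (add_zero x).symm⟩
    · rintro ⟨y, hy, z, hz, rfl⟩
      rw [mem_ms_zero] at hz
      subst hz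
      rw [add_zero, add_zero]
      exact hy
  | succ n ih =>
    rw [← add_assoc, mem_ms_succ]
    constructor
    · rintro ⟨y, hy, a, ha, rfl⟩
      obtain ⟨y', hy', z, hz, rfl⟩ := ih.1 hy
      exact ⟨y', hy', z + a, ⟨z, hz, a, ha, rfl⟩, add_assoc _ _ _⟩
    · rintro ⟨y, hy, z, ⟨z', hz', a, ha, rfl⟩, rfl⟩
      exact ⟨y + z', ih.2 ⟨y, hy, z', hz', rfl⟩, a, ha, (add_assoc _ _ _).symm⟩

theorem add_mem_ms {A : Set E} {m n : ℕ} {x y : E} (hx : x ∈ ms A m) (hy : y ∈ ms A n) :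
    x + y ∈ ms A (m + n) := (mem_ms_add m n).2 ⟨x, hx, y, hy, rfl⟩

theorem zero_mem_ms {A : Set E} (h0 : (0 : E) ∈ A) (n : ℕ) : (0 : E) ∈ ms A n := by
  induction n with
  | zero => rfl
  | succ n ih => exact ⟨0, ih, 0, h0, (add_zero 0).symm⟩

theorem ms_mono {A : Set E} (h0 : (0 : E) ∈ A) {m n : ℕ} (h : m ≤ n) : ms A m ⊆ ms A n := by
  obtain ⟨k, rfl⟩ := Nat.exists_eq_add_of_le h
  intro x hx
  have := add_mem_ms hx (zero_mem_ms h0 k)
  rwa [add_zero] at this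

theorem ms_subset {A B : Set E} (h : A ⊆ B) (n : ℕ) : ms A n ⊆ ms B n := by
  induction n with
  | zero => exact fun x hx => hx
  | succ n ih =>
    rintro x ⟨y, hy, a, ha, rfl⟩
    exact ⟨y, ih hy, a, h ha, rfl⟩

theorem neg_mem_ms {A : Set E} (hs : ∀ a ∈ A, -a ∈ A) (n : ℕ) {x : E} (hx : x ∈ ms A n) :
    -x ∈ ms A n := by
  induction n generalizing x with
  | zero =>
    rw [mem_ms_zero] at hx ⊢
    rw [hx, neg_zero]
  | succ n ih =>
    obtain ⟨y, hy, a, ha, rfl⟩ := hx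
    exact ⟨-y, ih hy, -a, hs a ha, by abel⟩

theorem ms_ms {A : Set E} (m n : ℕ) {x : E} (hx : x ∈ ms (ms A m) n) : x ∈ ms A (m * n) := by
  induction n generalizing x with
  | zero => exact hx
  | succ n ih =>
    obtain ⟨y, hy, a, ha, rfl⟩ := hx
    rw [Nat.mul_succ]
    exact add_mem_ms (ih hy) ha

theorem nsmul_mem_ms {A : Set E} {a : E} (ha : a ∈ A) (n : ℕ) : n • a ∈ ms A n := by
  induction n with
  | zero => rw [zero_nsmul]; rfl
  | succ n ih => exact ⟨n • a, ih, a, ha, succ_nsmul a n⟩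

theorem map_mem_ms {F : Type*} [AddCommGroup F] (L : E →+ F) {A : Set E} {B : Set F}
    (h : ∀ a ∈ A, L a ∈ B) (n : ℕ) {x : E} (hx : x ∈ ms A n) : L x ∈ ms B n := by
  induction n generalizing x with
  | zero =>
    rw [mem_ms_zero] at hx ⊢
    rw [hx, map_zero]
  | succ n ih =>
    obtain ⟨y, hy, a, ha, rfl⟩ := hx
    exact ⟨L y, ih hy, L a, h a ha, map_add L y a⟩

end Sums

section Line

variable {B : Set ℝ} {P : ℝ}

/-- The sum set `ms B n` made periodic with period `P`. -/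
def Hs (B : Set ℝ) (P : ℝ) (n : ℕ) : Set ℝ := {y | ∃ t : ℤ, y - t * P ∈ ms B n}

theorem Hs_shift (n : ℕ) {y : ℝ} (t : ℤ) (h : y - t * P ∈ Hs B P n) : y ∈ Hs B P n := by
  obtain ⟨s, hs⟩ := h
  refine ⟨t + s, ?_⟩
  have : y - ((t + s : ℤ) : ℝ) * P = y - t * P - s * P := by push_cast; ring
  rw [this]
  exact hs

theorem ms_abs (hBP : ∀ b ∈ B, |b| ≤ P) (n : ℕ) {x : ℝ} (hx : x ∈ ms B n) : |x| ≤ n * P := by
  induction n generalizing x with
  | zero =>
    rw [mem_ms_zero] at hx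
    rw [hx]; simp
  | succ n ih =>
    obtain ⟨y, hy, a, ha, rfl⟩ := hx
    have h1 := ih hy
    have h2 := hBP a ha
    have h3 := abs_add_le y a
    push_cast
    linarith

theorem Hs_univ {ε : ℝ} (hε : 0 < ε) (hI : ∀ y, |y| ≤ ε → y ∈ B) (n : ℕ)
    (h : Hs B P (n + 1) ⊆ Hs B P n) (x : ℝ) : x ∈ Hs B P n := by
  have h0B : (0 : ℝ) ∈ B := hI 0 (by rw [abs_zero]; exact hε.le)
  have h1 : ∀ m : ℕ, ms B m ⊆ Hs B P n := by
    intro m
    induction m with
    | zero =>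
      intro y hy
      rw [mem_ms_zero] at hy
      refine ⟨0, ?_⟩
      rw [hy]
      simpa using zero_mem_ms h0B n
    | succ m ih =>
      rintro y ⟨z, hz, b, hb, rfl⟩
      obtain ⟨t, ht⟩ := ih hz
      apply h
      refine ⟨t, z - t * P, ht, b, hb, by ring⟩
  obtain ⟨m, hm⟩ := exists_nat_gt (|x| / ε)
  have hm0 : 0 < (m : ℝ) := lt_of_le_of_lt (by positivity) hm
  have hx : m • (x / m) = x := by
    rw [nsmul_eq_mul]
    field_simp
  have hxm : x / m ∈ B := by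
    apply hI
    rw [abs_div, abs_of_pos hm0, div_le_iff₀ hm0]
    rw [div_lt_iff₀ hε] at hm
    linarith
  have := nsmul_mem_ms hxm m
  rw [hx] at this
  exact h1 m this

theorem Hs_small (hP1 : 1 ≤ P) (hPB : P ∈ B) (hBP : ∀ b ∈ B, |b| ≤ P) (hs : ∀ b ∈ B, -b ∈ B)
    (h0B : (0 : ℝ) ∈ B) {x : ℝ} (hx0 : 0 ≤ x) (hx1 : x ≤ 1) (n : ℕ) (h : x ∈ Hs B P n) :
    x ∈ ms B (2 * n + 1) := by
  obtain ⟨t, ht⟩ := h
  have hP0 : 0 < P := by linarith
  have h1 := ms_abs hBP n ht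
  have h2 : (|t| : ℤ) ≤ n + 1 := by
    have h3 : |(t : ℝ)| * P ≤ (n + 1) * P := by
      have h4 : |(t : ℝ) * P| ≤ |x| + |x - t * P| := by
        have h5 : (t : ℝ) * P = x - (x - t * P) := by ring
        calc |(t : ℝ) * P| = |x - (x - t * P)| := by rw [← h5]
          _ ≤ |x| + |x - t * P| := abs_sub _ _
      rw [abs_mul, abs_of_pos hP0, abs_of_nonneg hx0] at h4
      linarith
    have h6 : |(t : ℝ)| ≤ n + 1 := le_of_mul_le_mul_right h3 hP0
    have h7 : ((|t| : ℤ) : ℝ) ≤ ((n + 1 : ℤ) : ℝ) := by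
      push_cast
      exact h6
    exact_mod_cast h7
  have h3 : (t : ℝ) * P ∈ ms B (n + 1) := by
    obtain ⟨m, hm | hm⟩ := Int.eq_nat_or_neg t
    · have h4 : m ≤ n + 1 := by
        rw [hm, abs_of_nonneg (by positivity)] at h2
        exact_mod_cast h2
      have h7 : (t : ℝ) * P = m • P := by
        rw [nsmul_eq_mul, hm]
        push_cast
        ring
      rw [h7]
      exact ms_mono h0B h4 (nsmul_mem_ms hPB m)
    · have h4 : m ≤ n + 1 := by
        rw [hm, abs_neg, abs_of_nonneg (by positivity)] at h2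
        exact_mod_cast h2
      have h7 : (t : ℝ) * P = -(m • P) := by
        rw [nsmul_eq_mul, hm]
        push_cast
        ring
      rw [h7]
      exact neg_mem_ms hs _ (ms_mono h0B h4 (nsmul_mem_ms hPB m))
  have h4 := add_mem_ms ht h3
  have h5 : x - t * P + t * P = x := by ring
  rw [h5] at h4
  have h6 : n + (n + 1) = 2 * n + 1 := by ring
  rw [h6] at h4
  exact h4

/-- The separated points: modulo `P` the point `c i` is at the `3 i`-th stage not yet reached. -/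
theorem exists_pts (hP1 : 1 ≤ P) (hPB : P ∈ B) (hBP : ∀ b ∈ B, |b| ≤ P) (hs : ∀ b ∈ B, -b ∈ B)
    {ε : ℝ} (hε : 0 < ε) (hI : ∀ y, |y| ≤ ε → y ∈ B)
    {x : ℝ} (hx0 : 0 ≤ x) (hx1 : x ≤ 1) (j : ℕ) (hh : x ∉ ms B (6 * j + 1)) :
    ∃ c : ℕ → ℝ, ∀ i ≤ j, c i ∈ ms B (3 * i + 1) ∧ c i ∉ Hs B P (3 * i) := by
  have h0B : (0 : ℝ) ∈ B := hI 0 (by rw [abs_zero]; exact hε.le)
  have h1 : ∀ i : ℕ, ∃ c : ℝ, i ≤ j → c ∈ ms B (3 * i + 1) ∧ c ∉ Hs B P (3 * i) := by
    intro i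
    by_cases hi : i ≤ j
    · have h2 : ¬ Hs B P (3 * i + 1) ⊆ Hs B P (3 * i) := by
        intro h3
        have h4 := Hs_univ hε hI (3 * i) h3 x
        have h5 := Hs_small hP1 hPB hBP hs h0B hx0 hx1 _ h4
        exact hh (ms_mono h0B (by omega) h5)
      rw [Set.not_subset] at h2
      obtain ⟨y, ⟨t, ht⟩, hy2⟩ := h2
      refine ⟨y - t * P, fun _ => ⟨ht, fun h3 => hy2 (Hs_shift _ t h3)⟩⟩
    · exact ⟨0, fun h => absurd h hi⟩
  choose c hc using h1
  exact ⟨c, hc⟩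

/-- Translates of a set with small difference set are disjoint. -/
theorem disj (hP1 : 1 ≤ P) (hBP : ∀ b ∈ B, |b| ≤ P) (h0B : (0 : ℝ) ∈ B) {j : ℕ}
    {c : ℕ → ℝ} (hc : ∀ i ≤ j, c i ∈ ms B (3 * i + 1) ∧ c i ∉ Hs B P (3 * i))
    {F : Set ℝ} (hF : ∀ f ∈ F, ∀ g ∈ F, f - g ∈ B) {i l : ℕ} (hi : i ≤ j) (hl : l ≤ j)
    {t s : ℤ} {f g : ℝ} (hf : f ∈ F) (hg : g ∈ F)
    (h : c i + 2 * t * P + f = c l + 2 * s * P + g) : i = l ∧ t = s := by
  have key : ∀ {i l : ℕ}, i ≤ j → l ≤ j → ∀ {t s : ℤ} {f g : ℝ}, f ∈ F → g ∈ F →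
      c i + 2 * t * P + f = c l + 2 * s * P + g → ¬ l < i := by
    intro i l hi hl t s f g hf hg h hlt
    apply (hc i hi).2
    refine ⟨2 * (s - t), ?_⟩
    have h1 : c i - ((2 * (s - t) : ℤ) : ℝ) * P = c l + (g - f) := by
      push_cast
      linarith
    rw [h1]
    have h2 : c l + (g - f) ∈ ms B (3 * l + 1 + 1) := ⟨c l, (hc l hl).1, g - f, hF g hg f hf, rfl⟩
    exact ms_mono h0B (by omega) h2
  have h1 := key hi hl hf hg h
  have h2 := key hl hi hg hf h.symm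
  have h3 : i = l := by omega
  refine ⟨h3, ?_⟩
  subst h3
  by_contra hne
  have h4 : 2 * ((t : ℝ) - s) * P = g - f := by linarith
  have h5 := hBP _ (hF g hg f hf)
  rw [← h4] at h5
  have h6 : (1 : ℝ) ≤ |(t : ℝ) - s| := by
    have : (1 : ℤ) ≤ |t - s| := Int.one_le_abs (sub_ne_zero.2 hne)
    have h7 : ((1 : ℤ) : ℝ) ≤ ((|t - s| : ℤ) : ℝ) := by exact_mod_cast this
    push_cast at h7
    exact h7
  rw [abs_mul, abs_mul, abs_of_pos (by norm_num : (0 : ℝ) < 2), abs_of_pos (by linarith : (0 : ℝ) < P)] at h5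
  nlinarith

end Line

section Product

theorem isCompact_ms {E : Type*} [NormedAddCommGroup E] {A : Set E} (hc : IsCompact A) (n : ℕ) :
    IsCompact (ms A n) := by
  induction n with
  | zero => exact isCompact_singleton
  | succ n ih =>
    have h1 : ms A (n + 1) = (fun q : E × E => q.1 + q.2) '' (ms A n ×ˢ A) := by
      ext x
      constructor
      · rintro ⟨y, hy, a, ha, rfl⟩
        exact ⟨(y, a), ⟨hy, ha⟩, rfl⟩
      · rintro ⟨⟨y, a⟩, ⟨hy, ha⟩, rfl⟩
        exact ⟨y, hy, a, ha, rfl⟩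
    rw [h1]
    exact (ih.prod hc).image (continuous_fst.add continuous_snd)

variable {F : Type*} [NormedAddCommGroup F] [NormedSpace ℝ F]

theorem fibre_le {A : Set (ℝ × F)} (hc : IsCompact A) (hs : ∀ a ∈ A, -a ∈ A) (h0 : A ∈ nhds 0)
    (h1 : ((1 : ℝ), (0 : F)) ∈ A) {x : ℝ} (hx0 : 0 ≤ x) (hx1 : x ≤ 1) {j : ℕ} (hj : 1 ≤ j)
    (hh : (x, (0 : F)) ∉ ms A (20 * j)) (p : F) :
    ((j : ENNReal) + 1) ^ 2 * volume {y : ℝ | (y, p) ∈ A} ≤
      volume {y : ℝ | (y, (j : ℝ) • p) ∈ ms A (13 * j)} := by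
  have h0A : (0 : ℝ × F) ∈ A := mem_of_mem_nhds h0
  have hcl : ∀ (n : ℕ) (q : F), IsClosed {y : ℝ | (y, q) ∈ ms A n} := fun n q =>
    (isCompact_ms hc n).isClosed.preimage (by fun_prop : Continuous fun y : ℝ => (y, q))
  have hclA : ∀ q : F, IsClosed {y : ℝ | (y, q) ∈ A} := fun q =>
    hc.isClosed.preimage (by fun_prop : Continuous fun y : ℝ => (y, q))
  set B : Set ℝ := {y : ℝ | (y, (0 : F)) ∈ ms A 2} with hB
  have hBc : IsCompact B := by
    apply Metric.isCompact_of_isClosed_isBounded (hcl 2 0)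
    have h2 := (isCompact_ms hc 2).isBounded
    obtain ⟨R, hR⟩ := h2.subset_closedBall 0
    apply (Metric.isBounded_closedBall (x := (0 : ℝ)) (r := R)).subset
    intro y hy
    have h3 := hR hy
    rw [mem_closedBall_zero_iff] at h3 ⊢
    exact le_trans (norm_fst_le (y, (0 : F))) h3
  have hBs : ∀ b ∈ B, -b ∈ B := by
    intro b hb
    have h2 := neg_mem_ms hs 2 hb
    have h3 : -(b, (0 : F)) = (-b, (0 : F)) := by simp
    rw [h3] at h2
    exact h2
  have h1B : (1 : ℝ) ∈ B := ms_mono h0A (by norm_num) (mem_ms_one.2 h1)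
  set P : ℝ := sSup B with hP
  have hPB : P ∈ B := hBc.sSup_mem ⟨1, h1B⟩
  have hle : ∀ b ∈ B, b ≤ P := fun b hb => le_csSup hBc.bddAbove hb
  have hP1 : 1 ≤ P := hle 1 h1B
  have hBP : ∀ b ∈ B, |b| ≤ P := by
    intro b hb
    rw [abs_le]
    have h2 := hle b hb
    have h3 := hle (-b) (hBs b hb)
    exact ⟨by linarith, h2⟩
  obtain ⟨ε, hε, hI⟩ : ∃ ε > 0, ∀ y : ℝ, |y| ≤ ε → y ∈ B := by
    have h2 : Filter.Tendsto (fun y : ℝ => (y, (0 : F))) (nhds 0) (nhds 0) := by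
      have : Continuous fun y : ℝ => (y, (0 : F)) := by fun_prop
      exact this.tendsto' 0 0 rfl
    have h3 := h2 h0
    rw [Filter.mem_map, Metric.mem_nhds_iff] at h3
    obtain ⟨ε, hε, h4⟩ := h3
    refine ⟨ε / 2, by positivity, ?_⟩
    intro y hy
    have h5 : y ∈ Metric.ball (0 : ℝ) ε := by
      rw [mem_ball_zero_iff, Real.norm_eq_abs]
      linarith
    exact ms_mono h0A (by norm_num) (mem_ms_one.2 (h4 h5))
  have h0B : (0 : ℝ) ∈ B := hI 0 (by rw [abs_zero]; exact hε.le)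
  have hemb : ∀ (n : ℕ) {y : ℝ}, y ∈ ms B n → (y, (0 : F)) ∈ ms A (2 * n) := by
    intro n y hy
    have h2 := map_mem_ms (AddMonoidHom.inl ℝ F) (B := ms A 2) (fun a ha => ha) n hy
    exact ms_ms 2 n h2
  have hhB : x ∉ ms B (6 * j + 1) := by
    intro h2
    exact hh (ms_mono h0A (by omega) (hemb _ h2))
  obtain ⟨c, hcc⟩ := exists_pts hP1 hPB hBP hBs hε hI hx0 hx1 j hhB
  rcases Set.eq_empty_or_nonempty {y : ℝ | (y, p) ∈ A} with he | ⟨f, hf⟩
  · rw [he]; simp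
  set S : Set ℝ := {y : ℝ | (y, p) ∈ A} with hS
  have hSB : ∀ f ∈ S, ∀ g ∈ S, f - g ∈ B := by
    intro f hf g hg
    have h2 : (-g, -p) ∈ A := hs _ hg
    have hf' : (f, p) ∈ A := hf
    have h3 := add_mem_ms (mem_ms_one.2 hf') (mem_ms_one.2 h2)
    have h4 : (f, p) + (-g, -p) = (f - g, (0 : F)) := by
      ext <;> simp [sub_eq_add_neg]
    rw [h4] at h3
    exact h3
  set v : ℕ × ℕ → ℝ := fun q => ((j : ℝ) - 1) * f + (c q.1 + 2 * ((q.2 : ℤ) : ℝ) * P) with hv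
  set I : Finset (ℕ × ℕ) := Finset.range (j + 1) ×ˢ Finset.range (j + 1) with hI'
  have hsub : (⋃ q ∈ I, (fun y : ℝ => -(v q) + y) ⁻¹' S) ⊆ {y : ℝ | (y, (j : ℝ) • p) ∈ ms A (13 * j)} := by
    intro y hy
    rw [mem_iUnion₂] at hy
    obtain ⟨q, hq, hy⟩ := hy
    have hq' := Finset.mem_product.1 hq
    have hq1 : q.1 ≤ j := by have := Finset.mem_range.1 hq'.1; omega
    have hq2 : q.2 ≤ j := by have := Finset.mem_range.1 hq'.2; omega
    have hy' : (-(v q) + y, p) ∈ A := hy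
    have hf' : ((f, p) : ℝ × F) ∈ A := hf
    have e1 : ((j - 1 : ℕ) • ((f, p) : ℝ × F)) ∈ ms A (j - 1) := nsmul_mem_ms hf' _
    have e2 := hemb _ (hcc q.1 hq1).1
    have e3 : ((2 * q.2) • P) ∈ ms B (2 * q.2) := nsmul_mem_ms hPB _
    have e4 := hemb _ e3
    have e5 := add_mem_ms (add_mem_ms (add_mem_ms e1 (mem_ms_one.2 hy')) e2) e4
    have e6 : (j - 1 : ℕ) • ((f, p) : ℝ × F) + (-(v q) + y, p) + (c q.1, 0) + ((2 * q.2) • P, 0)
        = (y, (j : ℝ) • p) := by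
      have e7 : ((j - 1 : ℕ) : ℝ) = (j : ℝ) - 1 := by
        rw [Nat.cast_sub hj]; simp
      ext
      · simp only [Prod.fst_add, Prod.smul_fst, nsmul_eq_mul, hv]
        rw [e7]
        push_cast
        ring
      · simp only [Prod.snd_add, Prod.smul_snd, add_zero]
        have e8 : (j - 1 : ℕ) • p + p = (j : ℕ) • p := by
          rw [← succ_nsmul]
          congr 1
          omega
        rw [e8, Nat.cast_smul_eq_nsmul]
    rw [e6] at e5
    exact ms_mono h0A (by omega) e5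
  have hdis : (I : Set (ℕ × ℕ)).PairwiseDisjoint (fun q => (fun y : ℝ => -(v q) + y) ⁻¹' S) := by
    intro q hq r hr hqr
    have hq' := Finset.mem_product.1 (Finset.mem_coe.1 hq)
    have hr' := Finset.mem_product.1 (Finset.mem_coe.1 hr)
    have hq1 : q.1 ≤ j := by have := Finset.mem_range.1 hq'.1; omega
    have hr1 : r.1 ≤ j := by have := Finset.mem_range.1 hr'.1; omega
    rw [Function.onFun, Set.disjoint_left]
    intro y hy1 hy2
    have h2 := disj hP1 hBP h0B hcc hSB hq1 hr1 (t := q.2) (s := r.2) hy1 hy2 (by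
      simp only [hv]; push_cast; ring)
    apply hqr
    ext
    · exact h2.1
    · exact_mod_cast h2.2
  have hmeas : ∀ q ∈ I, MeasurableSet ((fun y : ℝ => -(v q) + y) ⁻¹' S) := fun q _ =>
    ((hclA p).preimage (by fun_prop : Continuous fun y : ℝ => -(v q) + y)).measurableSet
  calc ((j : ENNReal) + 1) ^ 2 * volume S
      = ∑ q ∈ I, volume ((fun y : ℝ => -(v q) + y) ⁻¹' S) := by
        rw [Finset.sum_congr rfl (fun q _ => measure_preimage_add volume (-(v q)) S)]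
        rw [Finset.sum_const, hI', Finset.card_product, Finset.card_range, nsmul_eq_mul]
        push_cast
        ring
    _ = volume (⋃ q ∈ I, (fun y : ℝ => -(v q) + y) ⁻¹' S) :=
        (measure_biUnion_finset hdis hmeas).symm
    _ ≤ _ := measure_mono hsub

variable [FiniteDimensional ℝ F] [MeasurableSpace F] [BorelSpace F] (ν : Measure F)
  [ν.IsAddHaarMeasure]

theorem lintegral_smul {j : ℕ} (hj : 1 ≤ j) {g : F → ENNReal} (hg : Measurable g) :
    (j : ENNReal) ^ Module.finrank ℝ F * ∫⁻ p, g ((j : ℝ) • p) ∂ν = ∫⁻ q, g q ∂ν := by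
  have hj0 : (j : ℝ) ≠ 0 := by positivity
  have h1 : ∫⁻ p, g ((j : ℝ) • p) ∂ν = ∫⁻ q, g q ∂(Measure.map (fun p => (j : ℝ) • p) ν) :=
    (lintegral_map hg (by fun_prop)).symm
  rw [h1, Measure.map_addHaar_smul ν hj0, lintegral_smul_measure, smul_eq_mul, ← mul_assoc]
  have h2 : (j : ENNReal) ^ Module.finrank ℝ F *
      ENNReal.ofReal |((j : ℝ) ^ Module.finrank ℝ F)⁻¹| = 1 := by
    have h3 : (j : ENNReal) = ENNReal.ofReal (j : ℝ) := by simp
    rw [h3, ← ENNReal.ofReal_pow (by positivity), ← ENNReal.ofReal_mul (by positivity)]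
    rw [abs_of_pos (by positivity), mul_inv_cancel₀ (by positivity), ENNReal.ofReal_one]
  rw [h2, one_mul]

theorem hole_prod {A : Set (ℝ × F)} (hc : IsCompact A) (hs : ∀ a ∈ A, -a ∈ A) (h0 : A ∈ nhds 0)
    (h1 : ((1 : ℝ), (0 : F)) ∈ A) {x : ℝ} (hx0 : 0 ≤ x) (hx1 : x ≤ 1) {j : ℕ} (hj : 1 ≤ j)
    (hh : (x, (0 : F)) ∉ ms A (20 * j)) :
    (j : ENNReal) ^ (Module.finrank ℝ F + 2) * ((volume : Measure ℝ).prod ν) A ≤
      ((volume : Measure ℝ).prod ν) (ms A (13 * j)) := by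
  have hA : MeasurableSet A := hc.measurableSet
  have hM : MeasurableSet (ms A (13 * j)) := (isCompact_ms hc _).measurableSet
  rw [Measure.prod_apply_symm hA, Measure.prod_apply_symm hM]
  rw [← lintegral_smul ν hj (measurable_measure_prodMk_right hM)]
  rw [pow_add, mul_assoc]
  apply mul_le_mul_of_nonneg_left _ (by positivity)
  rw [← lintegral_const_mul _ (measurable_measure_prodMk_right hA)]
  apply lintegral_mono
  intro p
  refine le_trans ?_ (fibre_le hc hs h0 h1 hx0 hx1 hj hh p)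
  apply mul_le_mul_of_nonneg_right _ (by positivity)
  exact pow_le_pow_left₀ (by positivity) (le_add_of_nonneg_right (by positivity)) 2

end Product

section General

variable {E : Type*} [NormedAddCommGroup E] [NormedSpace ℝ E] [FiniteDimensional ℝ E]
  [MeasurableSpace E] [BorelSpace E] (μ : Measure E) [μ.IsAddHaarMeasure]

/-- THE HOLE LEMMA. -/
theorem hole {A : Set E} (hc : IsCompact A) (hs : ∀ a ∈ A, -a ∈ A) (h0 : A ∈ nhds 0)
    {θ : E} (hθ : θ ∈ A) {x : ℝ} (hx0 : 0 ≤ x) (hx1 : x ≤ 1) {j : ℕ} (hj : 1 ≤ j)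
    (hh : x • θ ∉ ms A (20 * j)) :
    (j : ENNReal) ^ (Module.finrank ℝ E + 1) * μ A ≤ μ (ms A (13 * j)) := by
  have h0A : (0 : E) ∈ A := mem_of_mem_nhds h0
  have hθ0 : θ ≠ 0 := by
    rintro rfl
    rw [smul_zero] at hh
    exact hh (zero_mem_ms h0A _)
  obtain ⟨q, hq⟩ := Submodule.exists_isCompl (Submodule.span ℝ {θ})
  let L0 : (ℝ × q) ≃ₗ[ℝ] E :=
    ((LinearEquiv.toSpanNonzeroSingleton ℝ E θ hθ0).prodCongr (LinearEquiv.refl ℝ q)).trans
      (Submodule.prodEquivOfIsCompl _ q hq)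
  let L : (ℝ × q) ≃L[ℝ] E := L0.toContinuousLinearEquiv
  have hL1 : L (1, 0) = θ := by
    show L0 (1, 0) = θ
    simp [L0, LinearEquiv.toSpanNonzeroSingleton_apply]
  have hLx : ∀ y : ℝ, L (y, 0) = y • θ := by
    intro y
    have h1 : ((y, 0) : ℝ × q) = y • ((1, 0) : ℝ × q) := by ext <;> simp
    rw [h1, map_smul, hL1]
  set A' : Set (ℝ × q) := L ⁻¹' A with hA'
  have hms : ∀ n, ms A' n = L ⁻¹' (ms A n) := by
    intro n
    ext y
    constructor
    · intro hy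
      exact map_mem_ms (L : (ℝ × q) →+ E) (fun a ha => ha) n hy
    · intro hy
      have h1 := map_mem_ms (L.symm : E →+ (ℝ × q)) (A := A) (B := A') (fun a ha => by
        show L (L.symm a) ∈ A
        rw [L.apply_symm_apply]
        exact ha) n hy
      have h2 : (L.symm : E →+ (ℝ × q)) (L y) = y := L.symm_apply_apply y
      rw [h2] at h1
      exact h1
  have hc' : IsCompact A' := by
    have h1 : A' = L.symm '' A := (L.symm.image_eq_preimage_symm A).symm
    rw [h1]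
    exact hc.image L.symm.continuous
  have hs' : ∀ a ∈ A', -a ∈ A' := by
    intro a ha
    show L (-a) ∈ A
    rw [map_neg]
    exact hs _ ha
  have h0' : A' ∈ nhds 0 := by
    apply L.continuous.continuousAt.preimage_mem_nhds
    rw [map_zero]
    exact h0
  have h1' : ((1 : ℝ), (0 : q)) ∈ A' := by
    show L (1, 0) ∈ A
    rw [hL1]
    exact hθ
  have hh' : (x, (0 : q)) ∉ ms A' (20 * j) := by
    rw [hms]
    intro h2
    apply hh
    have h3 : L (x, 0) ∈ ms A (20 * j) := h2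
    rw [hLx] at h3
    exact h3
  let ν : Measure q := Measure.addHaar
  have hp := hole_prod ν hc' hs' h0' h1' hx0 hx1 hj hh'
  have hfin : Module.finrank ℝ E = Module.finrank ℝ q + 1 := by
    rw [← L0.finrank_eq, Module.finrank_prod, Module.finrank_self, add_comm]
  have hμ : Measure.map L.symm μ = Measure.addHaarScalarFactor (Measure.map L.symm μ)
      ((volume : Measure ℝ).prod ν) • ((volume : Measure ℝ).prod ν) :=
    Measure.isAddLeftInvariant_eq_smul _ _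
  have hval : ∀ S : Set E, μ S = Measure.map L.symm μ (L ⁻¹' S) := by
    intro S
    have h2 : Measure.map L.symm.toHomeomorph.toMeasurableEquiv μ (L ⁻¹' S) =
        μ (L.symm.toHomeomorph.toMeasurableEquiv ⁻¹' (L ⁻¹' S)) :=
      MeasurableEquiv.map_apply _ _
    have h3 : (L.symm.toHomeomorph.toMeasurableEquiv ⁻¹' (L ⁻¹' S)) = S := by
      ext y
      show L (L.symm y) ∈ S ↔ y ∈ S
      rw [L.apply_symm_apply]
    rw [h3] at h2
    exact h2.symm
  rw [hval A, hval (ms A (13 * j)), ← hms, ← hA', hμ, Measure.smul_apply, Measure.smul_apply, hfin]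
  rw [mul_smul_comm]
  exact smul_le_smul_left _ hp

end General

end Pool.Agent.SawHole
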